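import Pool.Agent.Q92.LV.Asc

/-!
# Rationality of the central L-value: relations between fields and ascent from proper subfields

`E` is an elliptic curve over a number field `K`, and `F` runs through finite extensions of `K`.  The
minimal models `V` and the Euler product `LSeries V s`, with the correct factors at all primes, are those
of `Pool.Agent.TH322.BC.Defs`.  Canonical heights are characterised by the parallelogram law and the
comparison with the height `Height.logHeight` (of Mathlib, relative to `F`) of the `x`-coordinate.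
-/

set_option autoImplicit false

namespace Pool.Agent.Results.MP_90f827_nt.AscentFromSubfields

open NumberField IsDedekindDomain
open Pool.Agent.TH322.BC.Edge (MinimalModels LSeries)
open scoped Classical ComplexConjugate

/-- Period lattices of `E` over `K`: for every embedding `ν : K → ℂ` a basis `ω₁, ω₂` of the period
lattice `Λ_ν` of the differential `dx / (2y + a₁x + a₃)` of the curve `E ×_ν ℂ` (the lattice with
`g₂ = ν(c₄)/12`, `g₃ = ν(c₆)/216`), compatible with complex conjugation, and for real `ν` a nonzero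
real element of `Λ_ν`. -/
structure PeriodLattices {K : Type} [Field K] [NumberField K] (E : WeierstrassCurve K) where
  basis : (K →+* ℂ) → PeriodPair
  g₂_eq : ∀ ν, (basis ν).g₂ = ν E.c₄ / 12
  g₃_eq : ∀ ν, (basis ν).g₃ = ν E.c₆ / 216
  conj_mem : ∀ ν, ∀ x ∈ (basis ν).lattice,
    conj x ∈ (basis (ComplexEmbedding.conjugate ν)).lattice
  real : (K →+* ℂ) → ℝ
  real_ne : ∀ ν, ComplexEmbedding.IsReal ν → real ν ≠ 0
  real_mem : ∀ ν, ComplexEmbedding.IsReal ν → ((real ν : ℝ) : ℂ) ∈ (basis ν).lattice

section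
variable {K : Type} [Field K] [NumberField K] {E : WeierstrassCurve K} (P : PeriodLattices E)
  (F : Type) [Field F] [NumberField F] [Algebra K F]

/-- `P_σ` for the base change of `E` to `F` and an infinite place `σ` of `F`: a real period if `σ` is
real, `Im (ω₁ conj(ω₂))` if `σ` is complex. -/
noncomputable def period (σ : InfinitePlace F) : ℝ :=
  if σ.IsReal then P.real (σ.embedding.comp (algebraMap K F))
  else ((P.basis (σ.embedding.comp (algebraMap K F))).ω₁ *
    conj (P.basis (σ.embedding.comp (algebraMap K F))).ω₂).im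

/-- `Ω(E_F) = |d_F|^(1/2) ∏ P_σ`. -/
noncomputable def Omega : ℝ := Real.sqrt |(discr F : ℝ)| * ∏ σ, period P F σ

end

section
variable {F : Type} [Field F] [NumberField F]

/-- `h` is a canonical height on the points of `W` (relative to `F`). -/
def IsCanonicalHeight (W : WeierstrassCurve F) (h : W.toAffine.Point → ℝ) : Prop :=
  (∀ P Q, h (P + Q) + h (P - Q) = 2 * (h P + h Q)) ∧
    ∃ C : ℝ, ∀ P, |h P - Height.logHeight P.xRep| ≤ C

/-- The rank of `W(F)`. -/
noncomputable def rank (W : WeierstrassCurve F) : ℕ := Module.finrank ℤ W.toAffine.Point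

/-- `R` is the determinant of the height pairing on a maximal independent family of points (a rational
multiple of the regulator of `W(F)`; it is `1` if the rank is `0`). -/
def IsRegulator (W : WeierstrassCurve F) (R : ℝ) : Prop :=
  ∃ h : W.toAffine.Point → ℝ, IsCanonicalHeight W h ∧ ∃ P : Fin (rank W) → W.toAffine.Point,
    LinearIndependent ℤ P ∧ (Matrix.of fun i j => h (P i + P j) - h (P i) - h (P j) :
      Matrix (Fin (rank W)) (Fin (rank W)) ℝ).det = R

/-- `f` continues `L(W/F, s)` meromorphically to the domain `D`. -/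
def Continues (D : Set ℂ) (V : HeightOneSpectrum (𝓞 F) → WeierstrassCurve (𝓞 F)) (f : ℂ → ℂ) :
    Prop := MeromorphicOn f D ∧ ∀ s : ℂ, 3 / 2 < s.re → f s = LSeries V s

/-- `L(W/F, 1)` is in `ℚ^× Ω`: the L-function continues to `D`, is holomorphic at `1`, and `L(W/F, 1)`
is a nonzero rational multiple of `Ω`. -/
def ValueIn (D : Set ℂ) (W : WeierstrassCurve F) (Ω : ℝ) : Prop :=
  ∀ V : HeightOneSpectrum (𝓞 F) → WeierstrassCurve (𝓞 F), MinimalModels W V →
    ∃ f : ℂ → ℂ, Continues D V f ∧ AnalyticAt ℂ f 1 ∧ ∃ q : ℚ, q ≠ 0 ∧ f 1 = q * (Ω : ℂ)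

/-- The L-function continues to `D`, its order at `s = 1` is the rank of `W(F)`, and its leading
coefficient is a nonzero rational multiple of `Ω` times the regulator. -/
def LeadingIn (D : Set ℂ) (W : WeierstrassCurve F) (Ω : ℝ) : Prop :=
  ∀ V : HeightOneSpectrum (𝓞 F) → WeierstrassCurve (𝓞 F), MinimalModels W V →
    ∃ f : ℂ → ℂ, Continues D V f ∧ meromorphicOrderAt f 1 = ((rank W : ℤ) : WithTop ℤ) ∧
      ∃ (q : ℚ) (R : ℝ), q ≠ 0 ∧ IsRegulator W R ∧
        meromorphicTrailingCoeffAt f 1 = q * ((Ω * R : ℝ) : ℂ)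

end

/-- Connected open sets that contain the half-plane `Re s > 3/2` and the point `1`. -/
def IsDomain (D : Set ℂ) : Prop :=
  IsOpen D ∧ IsPreconnected D ∧ (1 : ℂ) ∈ D ∧ ∀ s : ℂ, 3 / 2 < s.re → s ∈ D

/-- All continuations of the L-function to `D` have the rank of `W(F)` as their order at `s = 1`, and the
`t`-th power of the leading coefficient is a nonzero rational multiple of the `t`-th power of `Ω` times
the regulator. -/
def RootIn {F : Type} [Field F] [NumberField F] (D : Set ℂ) (W : WeierstrassCurve F) (Ω : ℝ)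
    (t : ℕ) : Prop :=
  ∀ V : HeightOneSpectrum (𝓞 F) → WeierstrassCurve (𝓞 F), MinimalModels W V →
    ∀ f : ℂ → ℂ, Continues D V f → meromorphicOrderAt f 1 = ((rank W : ℤ) : WithTop ℤ) ∧
      ∃ (q : ℚ) (R : ℝ), q ≠ 0 ∧ IsRegulator W R ∧
        meromorphicTrailingCoeffAt f 1 ^ t = q * ((Ω * R : ℝ) : ℂ) ^ t

/-- The number of the embeddings of `F` in the algebraic closure of `K` that are fixed by `σ`. -/
noncomputable def fix (K F : Type) [Field K] [Field F] [Algebra K F]
    (σ : Gal(AlgebraicClosure K/K)) : ℕ :=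
  Nat.card {i : F →ₐ[K] AlgebraicClosure K // ∀ x, σ (i x) = i x}

/-- All subgroups of `G` whose order is a product of two primes (equal or not) are cyclic. -/
def IsPQCyclic (G : Type) [Group G] : Prop :=
  ∀ (A : Subgroup G) (p q : ℕ), p.Prime → q.Prime → Nat.card A = p * q → IsCyclic A

section laws
variable {K : Type} [Field K] [NumberField K] {E : WeierstrassCurve K} (P : PeriodLattices E)
  (D : Set ℂ)

/-- The statement on the value for `E/F`. -/
def LV (F : Type) [Field F] [NumberField F] [Algebra K F] : Prop :=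
  ValueIn D (E.map (algebraMap K F)) (Omega P F)

/-- The statement on the leading coefficient for `E/F`. -/
def LC (F : Type) [Field F] [NumberField F] [Algebra K F] : Prop :=
  LeadingIn D (E.map (algebraMap K F)) (Omega P F)

/-- The `t`-th power of the leading coefficient for `E/F`. -/
def Root (F : Type) [Field F] [NumberField F] [Algebra K F] (t : ℕ) : Prop :=
  RootIn D (E.map (algebraMap K F)) (Omega P F) t

/-- Part 1: ranks, regulators and periods in a relation `∑ n_j · 1_{F_j} = 0`. -/
def InvariantLaw : Prop :=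
  ∀ (ι : Type) [Fintype ι] (F : ι → Type) [∀ j, Field (F j)] [∀ j, NumberField (F j)]
    [∀ j, Algebra K (F j)] (n : ι → ℤ),
    (∀ σ : Gal(AlgebraicClosure K/K), ∑ j, n j * (fix K (F j) σ : ℤ) = 0) →
    ∑ j, n j * (rank (E.map (algebraMap K (F j))) : ℤ) = 0 ∧
    (∃ q : ℚ, q ≠ 0 ∧ ∏ j, Omega P (F j) ^ n j = q) ∧
    ∀ R : ι → ℝ, (∀ j, IsRegulator (E.map (algebraMap K (F j))) (R j)) →
      ∃ q : ℚ, q ≠ 0 ∧ ∏ j, R j ^ n j = q

/-- Part 2: the statements in a relation `∑ n_j · 1_{F_j} = 0`. -/
def RelationLaw : Prop :=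
  ∀ (ι : Type) [Fintype ι] (F : ι → Type) [∀ j, Field (F j)] [∀ j, NumberField (F j)]
    [∀ j, Algebra K (F j)] (n : ι → ℤ),
    (∀ σ : Gal(AlgebraicClosure K/K), ∑ j, n j * (fix K (F j) σ : ℤ) = 0) → ∀ i : ι,
    ((n i).natAbs = 1 → (∀ j, j ≠ i → LV P D (F j)) → LV P D (F i)) ∧
    ((n i).natAbs = 1 → (∀ j, j ≠ i → LC P D (F j)) → LC P D (F i)) ∧
    (n i ≠ 0 → (∀ j, j ≠ i → LC P D (F j)) → Root P D (F i) (n i).natAbs)

/-- Part 3: ascent. -/
def AscentLaw : Prop :=
  ∀ (F : Type) [Field F] [NumberField F] [Algebra K F] (A : Subgroup (F ≃ₐ[K] F)) (p q : ℕ),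
    p.Prime → q.Prime → Nat.card A = p * q → ¬ IsCyclic A →
    ((∀ B : Subgroup (F ≃ₐ[K] F), B ≤ A → B ≠ ⊥ →
      LV P D (IntermediateField.fixedField B)) → LV P D F) ∧
    ((∀ B : Subgroup (F ≃ₐ[K] F), B ≤ A → B ≠ ⊥ →
      LC P D (IntermediateField.fixedField B)) → LC P D F)

/-- Part 4: reduction to subfields. -/
def ReductionLaw : Prop :=
  ∀ (F : Type) [Field F] [NumberField F] [Algebra K F],
    ((∀ (F' : Type) [Field F'] [NumberField F'] [Algebra K F'] [Algebra F' F]
      [IsScalarTower K F' F], IsPQCyclic (F' ≃ₐ[K] F') → LV P D F') → LV P D F) ∧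
    ((∀ (F' : Type) [Field F'] [NumberField F'] [Algebra K F'] [Algebra F' F]
      [IsScalarTower K F' F], IsPQCyclic (F' ≃ₐ[K] F') → LC P D F') → LC P D F)

end laws

section proofs

/-- the period lattices as an object of the library -/
noncomputable def PeriodLattices.toPeriods {K : Type} [Field K] [NumberField K]
    {E : WeierstrassCurve K} (P : PeriodLattices E) : Pool.Agent.Q92.LV.Periods E where
  pair := P.basis
  g₂_eq := P.g₂_eq
  g₃_eq := P.g₃_eq
  conj_mem := P.conj_mem
  re := P.real
  re_ne := P.real_ne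
  re_mem := P.real_mem

variable {K : Type} [Field K] [NumberField K] {E : WeierstrassCurve K} (P : PeriodLattices E)

theorem om_eq (F : Type) [Field F] [NumberField F] [Algebra K F] :
    (P.toPeriods.up F).Om = Omega P F := rfl

theorem om_self : P.toPeriods.Om = Omega P K := by
  rw [← Pool.Agent.Q92.LV.up_self, om_eq]

theorem value_iff {F : Type} [Field F] [NumberField F] [Algebra K F] {D : Set ℂ}
    (h1 : (1 : ℂ) ∈ D) : Pool.Agent.Q92.LV.PP false D P.toPeriods F 1 ↔
      ValueIn D (E.map (algebraMap K F)) (Omega P F) := by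
  have h := Pool.Agent.Q92.LV.allLT_value h1 (E := E.map (algebraMap K F))
    (Pool.Agent.Q92.LV.om_ne (P.toPeriods.up F))
  unfold Pool.Agent.Q92.LV.PP
  have e1 : Pool.Agent.Q92.LV.rr' false (E.map (algebraMap K F)) = 0 := rfl
  have e2 : Pool.Agent.Q92.LV.cst false (P.toPeriods.up F) = (P.toPeriods.up F).Om := rfl
  rw [e1, e2, h, om_eq]
  unfold ValueIn Continues
  simp only [and_assoc]

theorem lead_iff (hE : E.IsElliptic) {F : Type} [Field F] [NumberField F] [Algebra K F]
    {D : Set ℂ} : Pool.Agent.Q92.LV.PP true D P.toPeriods F 1 ↔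
      LeadingIn D (E.map (algebraMap K F)) (Omega P F) := by
  have h := Pool.Agent.Q92.LV.allLT_lead (D := D) (E := E.map (algebraMap K F)) inferInstance
    (c := Omega P F)
  unfold Pool.Agent.Q92.LV.PP
  have e1 : Pool.Agent.Q92.LV.rr' true (E.map (algebraMap K F)) =
    (Pool.Agent.Q5.BR.rk (E.map (algebraMap K F)) : ℤ) := rfl
  have e2 : Pool.Agent.Q92.LV.cst true (P.toPeriods.up F) =
    Omega P F * Pool.Agent.Q92.LV.reg (E.map (algebraMap K F)) := rfl
  rw [e1, e2, h]
  unfold LeadingIn Continues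
  simp only [and_assoc]
  rfl

theorem root_iff (hE : E.IsElliptic) {F : Type} [Field F] [NumberField F] [Algebra K F]
    {D : Set ℂ} (hD : IsDomain D) {t : ℕ} (ht : 0 < t)
    (h : Pool.Agent.Q92.LV.PP true D P.toPeriods F (t : ℤ)) :
    RootIn D (E.map (algebraMap K F)) (Omega P F) t := by
  intro V hV f hf
  exact Pool.Agent.Q92.LV.lead_root hD (E := E.map (algebraMap K F)) inferInstance ht
    (c := Omega P F) h hV hf.1 hf.2

theorem fix_eq {F : Type} [Field F] [NumberField F] [Algebra K F]
    (σ : Gal(AlgebraicClosure K/K)) : fix K F σ = Pool.Agent.W353.NF.fixn K F σ := by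
  unfold fix Pool.Agent.W353.NF.fixn
  refine Nat.card_congr (Equiv.subtypeEquivRight fun i => ?_)
  rw [Pool.Agent.W353.NF.act_apply]
  constructor
  · intro h
    exact AlgHom.ext h
  · intro h x
    exact DFunLike.congr_fun h x

/-- the relation, solved for one field -/
theorem solve (b : Bool) (hE : E.IsElliptic) {D : Set ℂ} (h1 : (1 : ℂ) ∈ D) {ι : Type} [Fintype ι]
    {F : ι → Type} [∀ j, Field (F j)] [∀ j, NumberField (F j)] [∀ j, Algebra K (F j)] {n : ι → ℤ}
    (h : ∀ σ : Gal(AlgebraicClosure K/K), ∑ j, n j * (fix K (F j) σ : ℤ) = 0) (i : ι)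
    (hj : ∀ j, j ≠ i → Pool.Agent.Q92.LV.PP b D P.toPeriods (F j) 1) :
    Pool.Agent.Q92.LV.PP b D P.toPeriods (F i) ((n i).natAbs : ℤ) := by
  have h2 := Pool.Agent.Q92.LV.pp_solve b h1 hE P.toPeriods
    (X₀ := @Pool.Agent.Q5.BR.Ext.mk K _ _ (F i) _ _ _)
    (X := fun j : {j // j ≠ i} => @Pool.Agent.Q5.BR.Ext.mk K _ _ (F j.1) _ _ _)
    (n₀ := n i) (n := fun j => n j.1) (fun σ => by
      have h3 := h σ
      rw [Fintype.sum_eq_add_sum_subtype_ne _ i] at h3
      simp only [fix_eq] at h3
      exact h3) 1 (fun j => hj j.1 j.2)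
  rw [mul_one] at h2
  exact Pool.Agent.Q92.LV.pp_natAbs b h1 hE P.toPeriods h2

end proofs

/-- **Relations and ascent.**  Let `D` be a domain and `E` an elliptic curve over a number field `K` with
period lattices `P`.
1. Let `∑ n_j · 1_{F_j} = 0` be a relation between the permutation characters of finite extensions `F_j`
of `K`.  Then `∑ n_j rank E(F_j) = 0`, and `∏ Ω(E_{F_j})^(n_j)` and `∏ R_j^(n_j)`, where `R_j` is a
regulator of `E/F_j`, are rational numbers.
2. If the statement on the value (on the leading coefficient) holds for `E/F_j` for all `j ≠ i`, and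
`n_i = ±1`, then it holds for `E/F_i`, including the continuation of `L(E/F_i, s)`.  For all `n_i ≠ 0`, if
the statement on the leading coefficient holds for all `j ≠ i`, every continuation of `L(E/F_i, s)` has
order `rank E(F_i)` at `s = 1`, and the `|n_i|`-th power of its leading coefficient is a rational multiple
of that of `Ω(E_{F_i})` times the regulator.
3. If `A` is a noncyclic group of automorphisms of `F/K` whose order is a product of two primes, and each of
the two statements holds for the fields `F^B`, `1 ≠ B ≤ A`, then it holds for `F`.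
4. Each of the two statements holds for `F` if it holds for all subfields `F'` of `F/K` such that all
subgroups of order `p q` (`p`, `q` primes) of `Aut(F'/K)` are cyclic. -/
theorem result (D : Set ℂ) (hD : IsDomain D) (K : Type) [Field K] [NumberField K]
    (E : WeierstrassCurve K) (hE : E.IsElliptic) (P : PeriodLattices E) :
    InvariantLaw P ∧ RelationLaw P D ∧ AscentLaw P D ∧ ReductionLaw P D := by
  have h1 : (1 : ℂ) ∈ D := hD.2.2.1
  refine ⟨?_, ?_, ?_, ?_⟩
  · intro ι _ F _ _ _ n h
    let Y : ι → Pool.Agent.Q5.BR.Ext K := fun j => @Pool.Agent.Q5.BR.Ext.mk K _ _ (F j) _ _ _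
    have hrel : ∀ σ : Pool.Agent.W401.Cheb.GK K,
        ∑ j, n j * (Pool.Agent.W353.NF.fixn K (Y j).F σ : ℤ) = 0 := by
      intro τ
      rw [← h τ]
      exact Finset.sum_congr rfl fun j _ => by rw [fix_eq]
    refine ⟨?_, ?_, fun R hR => ?_⟩
    · have h2 := Pool.Agent.Q92.LV.rk_rel' (X := Y) (m := 0) hrel hE
      rw [zero_mul] at h2
      exact h2
    · obtain ⟨q, hq, h2⟩ := Pool.Agent.Q92.LV.om_rel' (X := Y) (m := 0) hrel P.toPeriods
      rw [zpow_zero, mul_one] at h2
      exact ⟨q, hq, h2⟩
    · exact Pool.Agent.Q92.LV.regE_relation (X := Y) hrel hE hR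
  · intro ι _ F _ _ _ n h i
    refine ⟨fun hi hj => ?_, fun hi hj => ?_, fun hi hj => ?_⟩
    · have h2 := solve P false hE h1 h i fun j hji => (value_iff P h1).2 (hj j hji)
      rw [hi] at h2
      exact (value_iff P h1).1 h2
    · have h2 := solve P true hE h1 h i fun j hji => (lead_iff P hE).2 (hj j hji)
      rw [hi] at h2
      exact (lead_iff P hE).1 h2
    · exact root_iff P hE hD (Int.natAbs_pos.2 hi)
        (solve P true hE h1 h i fun j hji => (lead_iff P hE).2 (hj j hji))
  · intro F _ _ _ A p q hp hq hc hn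
    refine ⟨fun h => ?_, fun h => ?_⟩
    · exact (value_iff P h1).1 (Pool.Agent.Q92.LV.pp_asc false h1 hE P.toPeriods F A hp hq hc hn
        fun B hB hB0 _ => (value_iff P h1).2 (h B hB hB0))
    · exact (lead_iff P hE).1 (Pool.Agent.Q92.LV.pp_asc true h1 hE P.toPeriods F A hp hq hc hn
        fun B hB hB0 _ => (lead_iff P hE).2 (h B hB hB0))
  · intro F _ _ _
    refine ⟨fun h => ?_, fun h => ?_⟩
    · exact (value_iff P h1).1 (Pool.Agent.Q92.LV.pp_reduce false h1 hE P.toPeriods _ F
        (Nat.lt_succ_self _) fun F' _ _ _ _ _ hF' => (value_iff P h1).2 (h F' hF'))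
    · exact (lead_iff P hE).1 (Pool.Agent.Q92.LV.pp_reduce true h1 hE P.toPeriods _ F
        (Nat.lt_succ_self _) fun F' _ _ _ _ _ hF' => (lead_iff P hE).2 (h F' hF'))

end Pool.Agent.Results.MP_90f827_nt.AscentFromSubfields
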