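import Pool.Agent.Q290.DZ.Per

/-!
# Central values over CM fields: Petersson norms of base changes multiply

`k` is a totally real field, `E/k` an elliptic curve, `M/k` a finite totally real Galois extension
with group `G`.  The structure `AdjointData` collects known theorems on the base changes of `E` to
the fields between `k` and `M` (for the subgroups `H` in `aut`, i.e. the fields `M^H` over which
`E` is automorphic).  The theorem is about any such data.
-/

set_option autoImplicit false

namespace Pool.Agent.Results.MP_90f827_nt.CMFields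

open Pool.Agent.Q246.BI Pool.Agent.Q290.DZ

/-- the values of a linear character of `H` as complex numbers -/
def lin {G : Type} [Group G] {H : Subgroup G} (ψ : H →* ℂˣ) : H → ℂ := fun h => ((ψ h : ℂˣ) : ℂ)

/-- Known facts on the values at `s = 1` of the adjoint L-functions of the base changes of `E`. -/
structure AdjointData (G : Type) [Group G] [Finite G] where
  /-- the `H` such that `E` is automorphic over `M^H` -/
  aut : Set (Subgroup G)
  /-- hyperelementary `H` (a normal cyclic subgroup of order prime to `p`, with a `p`-group as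
  quotient) are among them -/
  hyp : ∀ H : Subgroup G, Hyp H → H ∈ aut
  /-- `k` itself is among them -/
  top : ⊤ ∈ aut
  /-- `adj.val χ` is `L(1, Ad(E) ⊗ χ)` for every character `χ` of `G`: nonzero, multiplicative -/
  adj : Mult G
  /-- `gauss.val χ` is the square of the Galois Gauss sum of `χ` times `π ^ (m χ(1))` -/
  gauss : Mult G
  /-- `pet H` is the Petersson norm of the newform of `E` over `F = M^H`,
  times `(2π) ^ (2[F : ℚ])` -/
  pet : Subgroup G → ℂ
  pet_ne : ∀ H ∈ aut, pet H ≠ 0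
  /-- the algebraicity theorem over `M^H` for the characters induced from linear characters `ψ`
  of `H` (Sturm, Im), with Galois equivariance -/
  sturm : ∀ H ∈ aut, ∀ (ψ : H →* ℂˣ) (σ : ℂ ≃+* ℂ),
    σ (adj.val (Ind H (lin ψ)) / (gauss.val (Ind H (lin ψ)) * pet H)) =
      adj.val (conj σ (Ind H (lin ψ))) / (gauss.val (conj σ (Ind H (lin ψ))) * pet H)

/-- **Theorem.** (1) The Petersson norm over `M^H` is a rational multiple of the power
`[M^H : k]` of the Petersson norm over `k`.
(2) The values `L(1, Ad(E) ⊗ χ)` are Galois equivariant for ALL characters `χ` of `G`, with the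
power `χ(1)` of the Petersson norm over `k`.
(3) Let `Ω` be a number such that `pet ⊤` lies in `ℚ Ω` (known for `k = ℚ`, `Ω` the area of a
period parallelogram), or such that, for one CM quadratic extension `K₁` of `k`, the value
`L₁ = L(1, E_{K₁})` is not zero and lies in `ℚ |d_{K₁}|^(1/2) Ω` (the assertion of Q1, `Ω` the
product of these areas for the real embeddings of `k`) and, by the theorem of Shimura,
in `ℚ |d_{K₁}|^(1/2) pet ⊤`.
Then for all `H` in `aut` and all CM quadratic extensions `K` of `F = M^H`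
the value `L = L(1, E_K)`, which by the theorem of Shimura lies in `ℚ |d_K|^(1/2) pet H`, lies in
`ℚ |d_K|^(1/2) Ω ^ [F : k]`. -/
theorem result (G : Type) [Group G] [Finite G] (D : AdjointData G) :
    (∀ H ∈ D.aut, ∃ q : ℚ, q ≠ 0 ∧ D.pet H = q * D.pet ⊤ ^ H.index) ∧
    (∀ (χ : G → ℂ) (n : ℕ), IsCh χ → χ 1 = n → ∀ σ : ℂ ≃+* ℂ,
      σ (D.adj.val χ / (D.gauss.val χ * D.pet ⊤ ^ n)) =
        D.adj.val (conj σ χ) / (D.gauss.val (conj σ χ) * D.pet ⊤ ^ n)) ∧
    ∀ Ω : ℂ, (RatMul (D.pet ⊤) Ω ∨
        ∃ L₁ d₁ : ℂ, L₁ ≠ 0 ∧ RatMul L₁ (d₁ * D.pet ⊤) ∧ RatMul L₁ (d₁ * Ω)) →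
      ∀ H ∈ D.aut, ∀ L d : ℂ, RatMul L (d * D.pet H) → RatMul L (d * Ω ^ H.index) := by
  obtain ⟨h2, h1⟩ := period D.adj D.gauss D.aut D.hyp D.top D.pet D.pet_ne D.sturm
  refine ⟨h1, h2, ?_⟩
  intro Ω hΩ
  have key : RatMul (D.pet ⊤) Ω := by
    rcases hΩ with h | ⟨L₁, d₁, hL, ⟨q₁, hq₁⟩, ⟨q₂, hq₂⟩⟩
    · exact h
    have hd : d₁ ≠ 0 := by
      rintro rfl
      rw [zero_mul, mul_zero] at hq₁
      exact hL hq₁
    have hq1 : (q₁ : ℂ) ≠ 0 := by
      intro h
      rw [h, zero_mul] at hq₁
      exact hL hq₁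
    refine ⟨q₂ / q₁, ?_⟩
    have h3 : (q₁ : ℂ) * (d₁ * D.pet ⊤) = q₂ * (d₁ * Ω) := by rw [← hq₁, ← hq₂]
    have h4 : (q₁ : ℂ) * D.pet ⊤ = q₂ * Ω := by
      apply mul_left_cancel₀ hd
      linear_combination h3
    push_cast
    rw [div_mul_eq_mul_div, eq_div_iff hq1]
    linear_combination h4
  obtain ⟨q₀, hpet⟩ := key
  rintro H hH L d ⟨q, hq⟩
  obtain ⟨r, -, hr⟩ := h1 H hH
  refine ⟨q * r * q₀ ^ H.index, ?_⟩
  rw [hq, hr, hpet, mul_pow]
  push_cast
  ring

end Pool.Agent.Results.MP_90f827_nt.CMFields
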