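import Pool.Agent.Q92.LV.Pub

/-!
# Rationality of the central L-value: descent along families of fields

`E` is an elliptic curve over a number field `K`, and `F` runs through finite extensions of `K`.  The
minimal models `V` and the Euler product `LSeries V s`, with the correct factors at all primes, are those
of `Pool.Agent.TH322.BC.Defs`.  Canonical heights are characterised by the parallelogram law and the
comparison with the height `Height.logHeight` (of Mathlib, relative to `F`) of the `x`-coordinate.
-/

set_option autoImplicit false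

namespace Pool.Agent.Results.MP_90f827_nt.DescentAlongFamilies

open NumberField IsDedekindDomain
open Pool.Agent.TH322.BC.Edge (MinimalModels LSeries)
open scoped Classical ComplexConjugate

/-- Period lattices of `E` over `K`: for every embedding `ν : K → ℂ` a basis `ω₁, ω₂` of the period
lattice `Λ_ν` of the differential `dx / (2y + a₁x + a₃)` of the curve `E ×_ν ℂ` (the lattice with
`g₂ = ν(c₄)/12`, `g₃ = ν(c₆)/216`), compatible with complex conjugation, and for real `ν` a nonzero
real element of `Λ_ν`. -/
structure PeriodLattices {K : Type} [Field K] [NumberField K] (E : WeierstrassCurve K) where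
  basis : (K →+* ℂ) → PeriodPair
  g₂_eq : ∀ ν, (basis ν).g₂ = ν E.c₄ / 12
  g₃_eq : ∀ ν, (basis ν).g₃ = ν E.c₆ / 216
  conj_mem : ∀ ν, ∀ x ∈ (basis ν).lattice,
    conj x ∈ (basis (ComplexEmbedding.conjugate ν)).lattice
  real : (K →+* ℂ) → ℝ
  real_ne : ∀ ν, ComplexEmbedding.IsReal ν → real ν ≠ 0
  real_mem : ∀ ν, ComplexEmbedding.IsReal ν → ((real ν : ℝ) : ℂ) ∈ (basis ν).lattice

section
variable {K : Type} [Field K] [NumberField K] {E : WeierstrassCurve K} (P : PeriodLattices E)
  (F : Type) [Field F] [NumberField F] [Algebra K F]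

/-- `P_σ` for the base change of `E` to `F` and an infinite place `σ` of `F`: a real period if `σ` is
real, `Im (ω₁ conj(ω₂))` if `σ` is complex. -/
noncomputable def period (σ : InfinitePlace F) : ℝ :=
  if σ.IsReal then P.real (σ.embedding.comp (algebraMap K F))
  else ((P.basis (σ.embedding.comp (algebraMap K F))).ω₁ *
    conj (P.basis (σ.embedding.comp (algebraMap K F))).ω₂).im

/-- `Ω(E_F) = |d_F|^(1/2) ∏ P_σ`. -/
noncomputable def Omega : ℝ := Real.sqrt |(discr F : ℝ)| * ∏ σ, period P F σ

end

section
variable {F : Type} [Field F] [NumberField F]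

/-- `h` is a canonical height on the points of `W` (relative to `F`). -/
def IsCanonicalHeight (W : WeierstrassCurve F) (h : W.toAffine.Point → ℝ) : Prop :=
  (∀ P Q, h (P + Q) + h (P - Q) = 2 * (h P + h Q)) ∧
    ∃ C : ℝ, ∀ P, |h P - Height.logHeight P.xRep| ≤ C

/-- The rank of `W(F)`. -/
noncomputable def rank (W : WeierstrassCurve F) : ℕ := Module.finrank ℤ W.toAffine.Point

/-- `R` is the determinant of the height pairing on a maximal independent family of points (a rational
multiple of the regulator of `W(F)`; it is `1` if the rank is `0`). -/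
def IsRegulator (W : WeierstrassCurve F) (R : ℝ) : Prop :=
  ∃ h : W.toAffine.Point → ℝ, IsCanonicalHeight W h ∧ ∃ P : Fin (rank W) → W.toAffine.Point,
    LinearIndependent ℤ P ∧ (Matrix.of fun i j => h (P i + P j) - h (P i) - h (P j) :
      Matrix (Fin (rank W)) (Fin (rank W)) ℝ).det = R

/-- `f` continues `L(W/F, s)` meromorphically to the domain `D`. -/
def Continues (D : Set ℂ) (V : HeightOneSpectrum (𝓞 F) → WeierstrassCurve (𝓞 F)) (f : ℂ → ℂ) :
    Prop := MeromorphicOn f D ∧ ∀ s : ℂ, 3 / 2 < s.re → f s = LSeries V s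

/-- `L(W/F, 1)` is in `ℚ^× Ω`: the L-function continues to `D`, is holomorphic at `1`, and `L(W/F, 1)`
is a nonzero rational multiple of `Ω`. -/
def ValueIn (D : Set ℂ) (W : WeierstrassCurve F) (Ω : ℝ) : Prop :=
  ∀ V : HeightOneSpectrum (𝓞 F) → WeierstrassCurve (𝓞 F), MinimalModels W V →
    ∃ f : ℂ → ℂ, Continues D V f ∧ AnalyticAt ℂ f 1 ∧ ∃ q : ℚ, q ≠ 0 ∧ f 1 = q * (Ω : ℂ)

/-- The L-function continues to `D`, its order at `s = 1` is the rank of `W(F)`, and its leading
coefficient is a nonzero rational multiple of `Ω` times the regulator. -/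
def LeadingIn (D : Set ℂ) (W : WeierstrassCurve F) (Ω : ℝ) : Prop :=
  ∀ V : HeightOneSpectrum (𝓞 F) → WeierstrassCurve (𝓞 F), MinimalModels W V →
    ∃ f : ℂ → ℂ, Continues D V f ∧ meromorphicOrderAt f 1 = ((rank W : ℤ) : WithTop ℤ) ∧
      ∃ (q : ℚ) (R : ℝ), q ≠ 0 ∧ IsRegulator W R ∧
        meromorphicTrailingCoeffAt f 1 = q * ((Ω * R : ℝ) : ℂ)

end

/-- Connected open sets that contain the half-plane `Re s > 3/2` and the point `1`. -/
def IsDomain (D : Set ℂ) : Prop :=
  IsOpen D ∧ IsPreconnected D ∧ (1 : ℂ) ∈ D ∧ ∀ s : ℂ, 3 / 2 < s.re → s ∈ D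

/-- The number of the embeddings of `F` in the algebraic closure of `K` that are fixed by `σ`. -/
noncomputable def fix (K F : Type) [Field K] [Field F] [Algebra K F]
    (σ : Gal(AlgebraicClosure K/K)) : ℕ :=
  Nat.card {i : F →ₐ[K] AlgebraicClosure K // ∀ x, σ (i x) = i x}

/-- Families of finite extensions of `K` which are closed under isomorphisms and composita, such that
for all `σ` and all primes `p` some member has a number of embeddings fixed by `σ` that is prime to
`p`. -/
def IsExact {K : Type} [Field K] (𝓕 : Set (IntermediateField K (AlgebraicClosure K))) : Prop :=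
  (∀ F ∈ 𝓕, FiniteDimensional K F) ∧
  (∀ F ∈ 𝓕, ∀ F' : IntermediateField K (AlgebraicClosure K), Nonempty (F ≃ₐ[K] F') → F' ∈ 𝓕) ∧
  (∀ F ∈ 𝓕, ∀ F' ∈ 𝓕, F ⊔ F' ∈ 𝓕) ∧
  ∀ (σ : Gal(AlgebraicClosure K/K)) (p : ℕ), p.Prime → ∃ F ∈ 𝓕, ¬ p ∣ fix K F σ

/-- The group `G` is hyperelementary: for some prime `p` it has a cyclic normal subgroup of order prime
to `p` with quotient a `p`-group. -/
def IsHyperelementary (G : Type) [Group G] : Prop :=
  ∃ p : ℕ, p.Prime ∧ ∃ C : Subgroup G, C.Normal ∧ IsCyclic C ∧ (Nat.card C).Coprime p ∧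
    ∀ g : G, ∃ k : ℕ, g ^ p ^ k ∈ C

/-- A set of positive integers closed under multiples, with greatest common divisor `1`. -/
def IsSparse (M : Set ℕ) : Prop :=
  (∀ d ∈ M, ∀ n : ℕ, 0 < n → d * n ∈ M) ∧ ∀ g : ℕ, (∀ d ∈ M, g ∣ d) → g = 1

section laws
variable {K : Type} [Field K] [NumberField K] {E : WeierstrassCurve K} (P : PeriodLattices E)
  (D : Set ℂ)

/-- The statement on the value for `E/F`. -/
def LV (F : Type) [Field F] [NumberField F] [Algebra K F] : Prop :=
  ValueIn D (E.map (algebraMap K F)) (Omega P F)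

/-- The statement on the leading coefficient for `E/F`. -/
def LC (F : Type) [Field F] [NumberField F] [Algebra K F] : Prop :=
  LeadingIn D (E.map (algebraMap K F)) (Omega P F)

/-- Parts 1 and 2: families. -/
def FamilyLaw : Prop :=
  ∀ 𝓕 : Set (IntermediateField K (AlgebraicClosure K)), IsExact 𝓕 →
    ((∀ F ∈ 𝓕, ∀ [NumberField F], LV P D F) → LV P D K) ∧
    ((∀ F ∈ 𝓕, ∀ [NumberField F], LC P D F) → LC P D K)

/-- Part 3: Galois extensions. -/
def GaloisLaw : Prop :=
  ∀ (L : Type) [Field L] [NumberField L] [Algebra K L] [IsGalois K L],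
    ((∀ (F : Type) [Field F] [NumberField F] [Algebra K F] [Algebra F L] [IsScalarTower K F L],
        IsHyperelementary (L ≃ₐ[F] L) → LV P D F) →
      ∀ (F : Type) [Field F] [NumberField F] [Algebra K F] [Algebra F L] [IsScalarTower K F L],
        LV P D F) ∧
    ((∀ (F : Type) [Field F] [NumberField F] [Algebra K F] [Algebra F L] [IsScalarTower K F L],
        IsHyperelementary (L ≃ₐ[F] L) → LC P D F) →
      ∀ (F : Type) [Field F] [NumberField F] [Algebra K F] [Algebra F L] [IsScalarTower K F L],
        LC P D F)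

/-- Part 4: degrees. -/
def DegreeLaw : Prop :=
  ∀ M : Set ℕ, IsSparse M →
    (∀ (F : Type) [Field F] [NumberField F] [Algebra K F], Module.finrank K F ∈ M → LC P D F) →
    ∀ (F : Type) [Field F] [NumberField F] [Algebra K F], LC P D F

/-- Part 5: the leading coefficient and Q1. -/
def ValueLaw : Prop :=
  LC P D K → ∀ V : HeightOneSpectrum (𝓞 K) → WeierstrassCurve (𝓞 K), MinimalModels E V →
    ∀ f : ℂ → ℂ, Continues D V f → AnalyticAt ℂ f 1 → f 1 ≠ 0 →
      rank E = 0 ∧ ∃ q : ℚ, q ≠ 0 ∧ f 1 = q * (Omega P K : ℂ)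

end laws

section proofs

/-- the period lattices as an object of the library -/
noncomputable def PeriodLattices.toPeriods {K : Type} [Field K] [NumberField K]
    {E : WeierstrassCurve K} (P : PeriodLattices E) : Pool.Agent.Q92.LV.Periods E where
  pair := P.basis
  g₂_eq := P.g₂_eq
  g₃_eq := P.g₃_eq
  conj_mem := P.conj_mem
  re := P.real
  re_ne := P.real_ne
  re_mem := P.real_mem

variable {K : Type} [Field K] [NumberField K] {E : WeierstrassCurve K} (P : PeriodLattices E)

/-- the period lattices over an extension field -/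
noncomputable def PeriodLattices.up (F : Type) [Field F] [NumberField F] [Algebra K F] :
    PeriodLattices (E.map (algebraMap K F)) where
  basis := (P.toPeriods.up F).pair
  g₂_eq := (P.toPeriods.up F).g₂_eq
  g₃_eq := (P.toPeriods.up F).g₃_eq
  conj_mem := (P.toPeriods.up F).conj_mem
  real := (P.toPeriods.up F).re
  real_ne := (P.toPeriods.up F).re_ne
  real_mem := (P.toPeriods.up F).re_mem

theorem omega_up (F : Type) [Field F] [NumberField F] [Algebra K F] :
    Omega (P.up F) F = Omega P F := by
  have h := Pool.Agent.Q92.LV.up_self (P.toPeriods.up F)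
  exact h

theorem om_eq (F : Type) [Field F] [NumberField F] [Algebra K F] :
    (P.toPeriods.up F).Om = Omega P F := rfl

theorem om_self : P.toPeriods.Om = Omega P K := by
  rw [← Pool.Agent.Q92.LV.up_self, om_eq]

theorem value_iff {F : Type} [Field F] [NumberField F] [Algebra K F] {D : Set ℂ}
    (h1 : (1 : ℂ) ∈ D) : Pool.Agent.Q92.LV.PP false D P.toPeriods F 1 ↔
      ValueIn D (E.map (algebraMap K F)) (Omega P F) := by
  have h := Pool.Agent.Q92.LV.allLT_value h1 (E := E.map (algebraMap K F))
    (Pool.Agent.Q92.LV.om_ne (P.toPeriods.up F))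
  unfold Pool.Agent.Q92.LV.PP
  have e1 : Pool.Agent.Q92.LV.rr' false (E.map (algebraMap K F)) = 0 := rfl
  have e2 : Pool.Agent.Q92.LV.cst false (P.toPeriods.up F) = (P.toPeriods.up F).Om := rfl
  rw [e1, e2, h, om_eq]
  unfold ValueIn Continues
  simp only [and_assoc]

theorem lead_iff (hE : E.IsElliptic) {F : Type} [Field F] [NumberField F] [Algebra K F]
    {D : Set ℂ} : Pool.Agent.Q92.LV.PP true D P.toPeriods F 1 ↔
      LeadingIn D (E.map (algebraMap K F)) (Omega P F) := by
  have h := Pool.Agent.Q92.LV.allLT_lead (D := D) (E := E.map (algebraMap K F)) inferInstance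
    (c := Omega P F)
  unfold Pool.Agent.Q92.LV.PP
  have e1 : Pool.Agent.Q92.LV.rr' true (E.map (algebraMap K F)) =
    (Pool.Agent.Q5.BR.rk (E.map (algebraMap K F)) : ℤ) := rfl
  have e2 : Pool.Agent.Q92.LV.cst true (P.toPeriods.up F) =
    Omega P F * Pool.Agent.Q92.LV.reg (E.map (algebraMap K F)) := rfl
  rw [e1, e2, h]
  unfold LeadingIn Continues
  simp only [and_assoc]
  rfl

end proofs

/-- **Descent along families.**  Let `D` be a domain.
A. Let `E` be an elliptic curve over a number field `K` with period lattices `P`.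
1. Let `𝓕` be an exact family of finite extensions of `K`.  If `L(E/F, 1)` is a nonzero rational multiple
of `Ω(E_F)` for all `F ∈ 𝓕`, then `L(E/K, 1)` is a nonzero rational multiple of `Ω(E)`.
2. If for all `F ∈ 𝓕` the order of `L(E/F, s)` at `s = 1` is the rank of `E(F)` and the leading coefficient
is a rational multiple of `Ω(E_F)` times the regulator, then the same holds for `K`.
3. Let `L/K` be a Galois extension.  Each of the two statements holds for all intermediate fields `F` if
it holds for those for which `Gal(L/F)` is hyperelementary.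
4. Let `M` be a set of positive integers closed under multiples with greatest common divisor `1`.  If the
statement on the leading coefficient holds for all `F / K` with `[F : K]` in `M`, it holds for all finite
`F / K`.
5. The statement on the leading coefficient over `K` implies Q1 for `E/K`: if `f` continues `L(E/K, s)`
to `D`, is holomorphic at `1` and `f 1 ≠ 0`, then the rank is zero and `f 1` is a nonzero rational
multiple of `Ω(E)`.
B. If the statement on the leading coefficient holds for all elliptic curves over all number fields of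
degree in `M`, then it holds for all elliptic curves over all number fields. -/
theorem result (D : Set ℂ) (hD : IsDomain D) :
    (∀ (K : Type) [Field K] [NumberField K] (E : WeierstrassCurve K), E.IsElliptic →
      ∀ P : PeriodLattices E,
        FamilyLaw P D ∧ GaloisLaw P D ∧ DegreeLaw P D ∧ ValueLaw P D) ∧
    (∀ M : Set ℕ, IsSparse M →
      (∀ (F : Type) [Field F] [NumberField F], Module.finrank ℚ F ∈ M →
        ∀ E : WeierstrassCurve F, E.IsElliptic → ∀ P : PeriodLattices E,
          LeadingIn D E (Omega P F)) →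
      ∀ (F : Type) [Field F] [NumberField F] (E : WeierstrassCurve F), E.IsElliptic →
        ∀ P : PeriodLattices E, LeadingIn D E (Omega P F)) := by
  have h1 : (1 : ℂ) ∈ D := hD.2.2.1
  have key : ∀ (K : Type) [Field K] [NumberField K] (E : WeierstrassCurve K), E.IsElliptic →
      ∀ P : PeriodLattices E, DegreeLaw P D := by
    intro K _ _ E hE P M hM h F _ _ _
    exact (lead_iff P hE).1 (Pool.Agent.Q5.VL.gen_sparse_law
      (Pool.Agent.Q92.LV.pp_law true h1 hE P.toPeriods) hM.1 hM.2
      (fun F' _ _ _ hd => (lead_iff P hE).2 (h F' hd)) F)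
  refine ⟨?_, ?_⟩
  · intro K _ _ E hE P
    have hid : E.map (algebraMap K K) = E := by
      rw [Algebra.algebraMap_self, WeierstrassCurve.map_id]
    refine ⟨fun 𝓕 hF => ?_, fun L _ _ _ _ => ⟨fun h F _ _ _ _ _ => ?_, fun h F _ _ _ _ _ => ?_⟩,
      key K E hE P, ?_⟩
    · have hF' : Pool.Agent.Q5.SO.Exact 𝓕 := ⟨hF.1, hF.2.1, hF.2.2.1, fun σ p hp => by
        obtain ⟨F, hFm, hnd⟩ := hF.2.2.2 σ p hp
        refine ⟨F, hFm, ?_⟩
        have e : fix K F σ = Pool.Agent.W353.NF.fixn K F σ := by
          have hfd := hF.1 F hFm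
          have hnf : NumberField F := NumberField.of_module_finite K F
          unfold fix Pool.Agent.W353.NF.fixn
          refine Nat.card_congr (Equiv.subtypeEquivRight fun i => ?_)
          rw [Pool.Agent.W353.NF.act_apply]
          constructor
          · intro h
            exact AlgHom.ext h
          · intro h x
            exact DFunLike.congr_fun h x
        rwa [← e]⟩
      refine ⟨fun h => ?_, fun h => ?_⟩
      · exact (value_iff P h1).1 (Pool.Agent.Q92.LV.pp_exact false h1 hE P.toPeriods hF'
          fun F hFm _ => (value_iff P h1).2 (h F hFm))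
      · exact (lead_iff P hE).1 (Pool.Agent.Q92.LV.pp_exact true h1 hE P.toPeriods hF'
          fun F hFm _ => (lead_iff P hE).2 (h F hFm))
    · exact (value_iff P h1).1 (Pool.Agent.Q92.LV.pp_galois false h1 hE P.toPeriods L
        (fun F' _ _ _ _ _ hF' => (value_iff P h1).2 (h F' hF')) F)
    · exact (lead_iff P hE).1 (Pool.Agent.Q92.LV.pp_galois true h1 hE P.toPeriods L
        (fun F' _ _ _ _ _ hF' => (lead_iff P hE).2 (h F' hF')) F)
    · intro h V hV f hf hfa hne
      unfold LC at h
      rw [hid] at h
      obtain ⟨g, hg, h2⟩ := h V hV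
      exact Pool.Agent.Q92.LV.value_of_lead hD (E := E) (c := Omega P K) (V := V)
        ⟨g, hg.1, hg.2, h2⟩ hf.1 hf.2 hfa hne
  · intro M hM h F _ _ E hE P
    have h2 := key F E hE P M hM (fun F' _ _ _ hd => by
      have h3 := h F' (by
        rw [← Module.finrank_mul_finrank ℚ F F', mul_comm]
        exact hM.1 _ hd _ Module.finrank_pos) _ inferInstance (P.up F')
      rwa [omega_up] at h3) F
    unfold LC at h2
    rwa [Algebra.algebraMap_self, WeierstrassCurve.map_id] at h2

end Pool.Agent.Results.MP_90f827_nt.DescentAlongFamilies
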