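import Pool.Agent.Q92.LV.Root

/-!
# Rationality of the central L-value: radical test fields and divisible degrees

`E` is an elliptic curve over a number field `K`, and `F` runs through finite extensions of `K`.  The
minimal models `V` and the Euler product `LSeries V s`, with the correct factors at all primes, are those
of `Pool.Agent.TH322.BC.Defs`.  Canonical heights are characterised by the parallelogram law and the
comparison with the height `Height.logHeight` (of Mathlib, relative to `F`) of the `x`-coordinate.
-/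

set_option autoImplicit false

namespace Pool.Agent.Results.MP_90f827_nt.RadicalTestFields

open NumberField IsDedekindDomain
open Pool.Agent.TH322.BC.Edge (MinimalModels LSeries)
open scoped Classical ComplexConjugate

/-- Period lattices of `E` over `K`: for every embedding `ν : K → ℂ` a basis `ω₁, ω₂` of the period
lattice `Λ_ν` of the differential `dx / (2y + a₁x + a₃)` of the curve `E ×_ν ℂ` (the lattice with
`g₂ = ν(c₄)/12`, `g₃ = ν(c₆)/216`), compatible with complex conjugation, and for real `ν` a nonzero
real element of `Λ_ν`. -/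
structure PeriodLattices {K : Type} [Field K] [NumberField K] (E : WeierstrassCurve K) where
  basis : (K →+* ℂ) → PeriodPair
  g₂_eq : ∀ ν, (basis ν).g₂ = ν E.c₄ / 12
  g₃_eq : ∀ ν, (basis ν).g₃ = ν E.c₆ / 216
  conj_mem : ∀ ν, ∀ x ∈ (basis ν).lattice,
    conj x ∈ (basis (ComplexEmbedding.conjugate ν)).lattice
  real : (K →+* ℂ) → ℝ
  real_ne : ∀ ν, ComplexEmbedding.IsReal ν → real ν ≠ 0
  real_mem : ∀ ν, ComplexEmbedding.IsReal ν → ((real ν : ℝ) : ℂ) ∈ (basis ν).lattice

section
variable {K : Type} [Field K] [NumberField K] {E : WeierstrassCurve K} (P : PeriodLattices E)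
  (F : Type) [Field F] [NumberField F] [Algebra K F]

/-- `P_σ` for the base change of `E` to `F` and an infinite place `σ` of `F`: a real period if `σ` is
real, `Im (ω₁ conj(ω₂))` if `σ` is complex. -/
noncomputable def period (σ : InfinitePlace F) : ℝ :=
  if σ.IsReal then P.real (σ.embedding.comp (algebraMap K F))
  else ((P.basis (σ.embedding.comp (algebraMap K F))).ω₁ *
    conj (P.basis (σ.embedding.comp (algebraMap K F))).ω₂).im

/-- `Ω(E_F) = |d_F|^(1/2) ∏ P_σ`. -/
noncomputable def Omega : ℝ := Real.sqrt |(discr F : ℝ)| * ∏ σ, period P F σ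

end

section
variable {F : Type} [Field F] [NumberField F]

/-- `h` is a canonical height on the points of `W` (relative to `F`). -/
def IsCanonicalHeight (W : WeierstrassCurve F) (h : W.toAffine.Point → ℝ) : Prop :=
  (∀ P Q, h (P + Q) + h (P - Q) = 2 * (h P + h Q)) ∧
    ∃ C : ℝ, ∀ P, |h P - Height.logHeight P.xRep| ≤ C

/-- The rank of `W(F)`. -/
noncomputable def rank (W : WeierstrassCurve F) : ℕ := Module.finrank ℤ W.toAffine.Point

/-- `R` is the determinant of the height pairing on a maximal independent family of points (a rational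
multiple of the regulator of `W(F)`; it is `1` if the rank is `0`). -/
def IsRegulator (W : WeierstrassCurve F) (R : ℝ) : Prop :=
  ∃ h : W.toAffine.Point → ℝ, IsCanonicalHeight W h ∧ ∃ P : Fin (rank W) → W.toAffine.Point,
    LinearIndependent ℤ P ∧ (Matrix.of fun i j => h (P i + P j) - h (P i) - h (P j) :
      Matrix (Fin (rank W)) (Fin (rank W)) ℝ).det = R

/-- `f` continues `L(W/F, s)` meromorphically to the domain `D`. -/
def Continues (D : Set ℂ) (V : HeightOneSpectrum (𝓞 F) → WeierstrassCurve (𝓞 F)) (f : ℂ → ℂ) :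
    Prop := MeromorphicOn f D ∧ ∀ s : ℂ, 3 / 2 < s.re → f s = LSeries V s

/-- The L-function continues to `D`, its order at `s = 1` is the rank of `W(F)`, and its leading
coefficient is a nonzero rational multiple of `Ω` times the regulator. -/
def LeadingIn (D : Set ℂ) (W : WeierstrassCurve F) (Ω : ℝ) : Prop :=
  ∀ V : HeightOneSpectrum (𝓞 F) → WeierstrassCurve (𝓞 F), MinimalModels W V →
    ∃ f : ℂ → ℂ, Continues D V f ∧ meromorphicOrderAt f 1 = ((rank W : ℤ) : WithTop ℤ) ∧
      ∃ (q : ℚ) (R : ℝ), q ≠ 0 ∧ IsRegulator W R ∧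
        meromorphicTrailingCoeffAt f 1 = q * ((Ω * R : ℝ) : ℂ)

end

/-- Connected open sets that contain the half-plane `Re s > 3/2` and the point `1`. -/
def IsDomain (D : Set ℂ) : Prop :=
  IsOpen D ∧ IsPreconnected D ∧ (1 : ℂ) ∈ D ∧ ∀ s : ℂ, 3 / 2 < s.re → s ∈ D

/-- All continuations of the L-function to `D` have the rank of `W(F)` as their order at `s = 1`, and the
`t`-th power of the leading coefficient is a nonzero rational multiple of the `t`-th power of `Ω` times
the regulator. -/
def RootIn {F : Type} [Field F] [NumberField F] (D : Set ℂ) (W : WeierstrassCurve F) (Ω : ℝ)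
    (t : ℕ) : Prop :=
  ∀ V : HeightOneSpectrum (𝓞 F) → WeierstrassCurve (𝓞 F), MinimalModels W V →
    ∀ f : ℂ → ℂ, Continues D V f → meromorphicOrderAt f 1 = ((rank W : ℤ) : WithTop ℤ) ∧
      ∃ (q : ℚ) (R : ℝ), q ≠ 0 ∧ IsRegulator W R ∧
        meromorphicTrailingCoeffAt f 1 ^ t = q * ((Ω * R : ℝ) : ℂ) ^ t

/-- `F` is generated over `K` by finitely many `p`-th roots of positive integers all of whose prime
factors belong to `T`, and `p ^ k` divides the degree of `F/K`. -/
def TestField (T : Set ℕ) (p k : ℕ) (K F : Type) [Field K] [Field F] [Algebra K F] : Prop :=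
  (∃ S : Set F, S.Finite ∧
    (∀ x ∈ S, ∃ c : ℕ, c ≠ 0 ∧ (∀ l : ℕ, l.Prime → l ∣ c → l ∈ T) ∧ x ^ p = (c : F)) ∧
    IntermediateField.adjoin K S = ⊤) ∧
  p ^ k ∣ Module.finrank K F

/-- The number of the embeddings of `F` in the algebraic closure of `K` that are fixed by `σ`. -/
noncomputable def fix (K F : Type) [Field K] [Field F] [Algebra K F]
    (σ : Gal(AlgebraicClosure K/K)) : ℕ :=
  Nat.card {i : F →ₐ[K] AlgebraicClosure K // ∀ x, σ (i x) = i x}

/-- Families of finite extensions of `K` which are closed under isomorphisms and composita, such that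
for all `σ` some member has a number of embeddings fixed by `σ` that is prime to `p`. -/
def IsExactAt {K : Type} [Field K] (p : ℕ)
    (𝓕 : Set (IntermediateField K (AlgebraicClosure K))) : Prop :=
  (∀ F ∈ 𝓕, FiniteDimensional K F) ∧
  (∀ F ∈ 𝓕, ∀ F' : IntermediateField K (AlgebraicClosure K), Nonempty (F ≃ₐ[K] F') → F' ∈ 𝓕) ∧
  (∀ F ∈ 𝓕, ∀ F' ∈ 𝓕, F ⊔ F' ∈ 𝓕) ∧
  ∀ σ : Gal(AlgebraicClosure K/K), ∃ F ∈ 𝓕, ¬ p ∣ fix K F σ

/-- The group `G` is `p`-hyperelementary: it has a cyclic normal subgroup of order prime to `p` with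
quotient a `p`-group. -/
def IsHyper (p : ℕ) (G : Type) [Group G] : Prop :=
  ∃ C : Subgroup G, C.Normal ∧ IsCyclic C ∧ (Nat.card C).Coprime p ∧
    ∀ g : G, ∃ k : ℕ, g ^ p ^ k ∈ C

section laws
variable {K : Type} [Field K] [NumberField K] {E : WeierstrassCurve K} (P : PeriodLattices E)
  (D : Set ℂ)

/-- The statement (LC) for `E/F`. -/
def LC (F : Type) [Field F] [NumberField F] [Algebra K F] : Prop :=
  LeadingIn D (E.map (algebraMap K F)) (Omega P F)

/-- The conclusion with the exponent `t` for `E/F`. -/
def Root (F : Type) [Field F] [NumberField F] [Algebra K F] (t : ℕ) : Prop :=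
  RootIn D (E.map (algebraMap K F)) (Omega P F) t

/-- Part 1: counterexamples spread. -/
def SpreadLaw : Prop :=
  ¬ LC P D K → ∃ p₀ : ℕ, ∀ (p k : ℕ) (T : Set ℕ), p.Prime → p ≠ p₀ → (∀ l ∈ T, l.Prime) →
    T.Infinite → ∃ (F : Type) (_ : Field F) (_ : NumberField F) (_ : Algebra K F),
      TestField T p k K F ∧ ¬ LC P D F

/-- Part 2: one prime. -/
def RadicalLaw : Prop :=
  ∀ (p k : ℕ) (T : Set ℕ), p.Prime → (∀ l ∈ T, l.Prime) → T.Infinite →
    (∀ (F : Type) (_ : Field F) (_ : NumberField F) (_ : Algebra K F), TestField T p k K F →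
      LC P D F) → Root P D K (p ^ k)

/-- Part 3: divisible degrees. -/
def DegreeLaw : Prop :=
  ∀ M : ℕ, 0 < M →
    (∀ (F : Type) [Field F] [NumberField F] [Algebra K F], M ∣ Module.finrank K F → LC P D F) →
    ∀ (F : Type) [Field F] [NumberField F] [Algebra K F],
      Root P D F (M / M.gcd (Module.finrank K F))

/-- Part 4: families and Galois extensions, for one prime. -/
def PrimeLaw : Prop :=
  ∀ p : ℕ, p.Prime →
    (∀ 𝓕 : Set (IntermediateField K (AlgebraicClosure K)), IsExactAt p 𝓕 →
      (∀ F ∈ 𝓕, ∀ [NumberField F], LC P D F) → ∃ c : ℕ, ¬ p ∣ c ∧ Root P D K c) ∧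
    ∀ (L : Type) [Field L] [NumberField L] [Algebra K L] [IsGalois K L],
      (∀ (F : Type) [Field F] [NumberField F] [Algebra K F] [Algebra F L] [IsScalarTower K F L],
        IsHyper p (L ≃ₐ[F] L) → LC P D F) →
      ∀ (F : Type) [Field F] [NumberField F] [Algebra K F] [Algebra F L] [IsScalarTower K F L],
        ∃ c : ℕ, ¬ p ∣ c ∧ Root P D F c

/-- Part 5: the exponent `t` and Q1. -/
def ValueLaw : Prop :=
  ∀ t : ℕ, Root P D K t → ∀ V : HeightOneSpectrum (𝓞 K) → WeierstrassCurve (𝓞 K),
    MinimalModels E V → ∀ f : ℂ → ℂ, Continues D V f → AnalyticAt ℂ f 1 → f 1 ≠ 0 →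
      rank E = 0 ∧ ∃ q : ℚ, q ≠ 0 ∧ f 1 ^ t = q * (Omega P K : ℂ) ^ t

end laws

section proofs

/-- the period lattices as an object of the library -/
noncomputable def PeriodLattices.toPeriods {K : Type} [Field K] [NumberField K]
    {E : WeierstrassCurve K} (P : PeriodLattices E) : Pool.Agent.Q92.LV.Periods E where
  pair := P.basis
  g₂_eq := P.g₂_eq
  g₃_eq := P.g₃_eq
  conj_mem := P.conj_mem
  re := P.real
  re_ne := P.real_ne
  re_mem := P.real_mem

variable {K : Type} [Field K] [NumberField K] {E : WeierstrassCurve K} (P : PeriodLattices E)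

/-- the period lattices over an extension field -/
noncomputable def PeriodLattices.up (F : Type) [Field F] [NumberField F] [Algebra K F] :
    PeriodLattices (E.map (algebraMap K F)) where
  basis := (P.toPeriods.up F).pair
  g₂_eq := (P.toPeriods.up F).g₂_eq
  g₃_eq := (P.toPeriods.up F).g₃_eq
  conj_mem := (P.toPeriods.up F).conj_mem
  real := (P.toPeriods.up F).re
  real_ne := (P.toPeriods.up F).re_ne
  real_mem := (P.toPeriods.up F).re_mem

theorem omega_up (F : Type) [Field F] [NumberField F] [Algebra K F] :
    Omega (P.up F) F = Omega P F := by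
  have h := Pool.Agent.Q92.LV.up_self (P.toPeriods.up F)
  exact h

theorem om_eq (F : Type) [Field F] [NumberField F] [Algebra K F] :
    (P.toPeriods.up F).Om = Omega P F := rfl

theorem om_self : P.toPeriods.Om = Omega P K := by
  rw [← Pool.Agent.Q92.LV.up_self, om_eq]

theorem lead_iff (hE : E.IsElliptic) {F : Type} [Field F] [NumberField F] [Algebra K F]
    {D : Set ℂ} : Pool.Agent.Q92.LV.PP true D P.toPeriods F 1 ↔
      LeadingIn D (E.map (algebraMap K F)) (Omega P F) := by
  have h := Pool.Agent.Q92.LV.allLT_lead (D := D) (E := E.map (algebraMap K F)) inferInstance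
    (c := Omega P F)
  unfold Pool.Agent.Q92.LV.PP
  have e1 : Pool.Agent.Q92.LV.rr' true (E.map (algebraMap K F)) =
    (Pool.Agent.Q5.BR.rk (E.map (algebraMap K F)) : ℤ) := rfl
  have e2 : Pool.Agent.Q92.LV.cst true (P.toPeriods.up F) =
    Omega P F * Pool.Agent.Q92.LV.reg (E.map (algebraMap K F)) := rfl
  rw [e1, e2, h]
  unfold LeadingIn Continues
  simp only [and_assoc]
  rfl

theorem root_iff (hE : E.IsElliptic) {F : Type} [Field F] [NumberField F] [Algebra K F]
    {D : Set ℂ} (hD : IsDomain D) {t : ℕ} (ht : 0 < t)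
    (h : Pool.Agent.Q92.LV.PP true D P.toPeriods F (t : ℤ)) :
    RootIn D (E.map (algebraMap K F)) (Omega P F) t := by
  intro V hV f hf
  exact Pool.Agent.Q92.LV.lead_root hD (E := E.map (algebraMap K F)) inferInstance ht
    (c := Omega P F) h hV hf.1 hf.2

/-- a single prime -/
theorem radical (hE : E.IsElliptic) {D : Set ℂ} (hD : IsDomain D) (p k : ℕ) (T : Set ℕ)
    (hp : p.Prime) (hT : ∀ l ∈ T, l.Prime) (hinf : T.Infinite)
    (h : ∀ (F : Type) (_ : Field F) (_ : NumberField F) (_ : Algebra K F), TestField T p k K F →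
      LeadingIn D (E.map (algebraMap K F)) (Omega P F)) :
    Pool.Agent.Q92.LV.PP true D P.toPeriods K ((p ^ k : ℕ) : ℤ) := by
  have hpf : Fact p.Prime := ⟨hp⟩
  exact Pool.Agent.Q5.VL.gen_radical_law' (Pool.Agent.Q92.LV.pp_law true hD.2.2.1 hE P.toPeriods)
    p hT hinf k (fun F _ _ _ hr hd => (lead_iff P hE).2 (h F _ _ _ ⟨hr, hd⟩))

/-- the degrees -/
theorem degree (hE : E.IsElliptic) {D : Set ℂ} (hD : IsDomain D) (M : ℕ) (hM : 0 < M)
    (h : ∀ (F : Type) [Field F] [NumberField F] [Algebra K F], M ∣ Module.finrank K F →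
      LeadingIn D (E.map (algebraMap K F)) (Omega P F))
    (F : Type) [Field F] [NumberField F] [Algebra K F] :
    RootIn D (E.map (algebraMap K F)) (Omega P F) (M / M.gcd (Module.finrank K F)) :=
  root_iff P hE hD (Nat.div_pos (Nat.le_of_dvd hM (Nat.gcd_dvd_left _ _))
    (Nat.gcd_pos_of_pos_left _ hM))
    (Pool.Agent.Q5.VL.gen_power_law' (Pool.Agent.Q92.LV.pp_law true hD.2.2.1 hE P.toPeriods)
      (M := M) (fun F' _ _ _ hd => (lead_iff P hE).2 (h F' hd)) F)

end proofs

/-- **Radical test fields and divisible degrees.**  Let `D` be a domain, let (LC) be the statement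
`LeadingIn` for `E/F`: order at `s = 1` equal to the rank, leading coefficient a nonzero rational
multiple of `Ω(E_F)` times the regulator.
A. Let `E` be an elliptic curve over a number field `K` with period lattices `P`.
1. If (LC) fails for `E/K`, then for all primes `p` with at most one exception, all `k` and all infinite
sets `T` of primes it fails for `E/F` for some test field `F`.
2. If, for one prime `p`, one `k` and one infinite set `T` of primes, (LC) holds for `E/F` for all test
fields `F`, then every continuation of `L(E/K, s)` to `D` has order `rank E(K)` at `s = 1`, and the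
`p ^ k`-th power of its leading coefficient is a nonzero rational multiple of that of `Ω(E)` times the
regulator.
3. If (LC) holds for `E/F` for all `F/K` with `M ∣ [F : K]`, then for all finite `F/K` the same holds for
`E/F` with the exponent `M / gcd(M, [F : K])`.
4. Let `p` be a prime, and let `𝓕` be a family of finite extensions of `K`, closed under isomorphisms and
composita, such that for all `σ` some member has a number of embeddings fixed by `σ` that is prime to `p`.
If (LC) holds for `E/F` for all `F ∈ 𝓕`, then the conclusion of 2 holds with some exponent prime to `p`.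
Likewise, if `L/K` is a Galois extension and (LC) holds for the intermediate fields `F` such that
`Gal(L/F)` is `p`-hyperelementary, then for all intermediate fields the conclusion holds with some
exponent prime to `p`.
5. The conclusion with the exponent `t` implies the following form of Q1: if `f` continues `L(E/K, s)` to
`D`, is holomorphic at `1` and `f 1 ≠ 0`, then the rank is zero and `(f 1)^t` is a nonzero rational
multiple of `Ω(E)^t`.
B. If (LC) holds for all elliptic curves over all number fields of degree divisible by `M`, then for all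
elliptic curves over all number fields `F` the conclusion holds with the exponent
`M / gcd(M, [F : ℚ])`. -/
theorem result (D : Set ℂ) (hD : IsDomain D) :
    (∀ (K : Type) [Field K] [NumberField K] (E : WeierstrassCurve K), E.IsElliptic →
      ∀ P : PeriodLattices E,
        SpreadLaw P D ∧ RadicalLaw P D ∧ DegreeLaw P D ∧ PrimeLaw P D ∧ ValueLaw P D) ∧
    (∀ M : ℕ, 0 < M →
      (∀ (F : Type) [Field F] [NumberField F], M ∣ Module.finrank ℚ F →
        ∀ E : WeierstrassCurve F, E.IsElliptic → ∀ P : PeriodLattices E,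
          LeadingIn D E (Omega P F)) →
      ∀ (F : Type) [Field F] [NumberField F] (E : WeierstrassCurve F), E.IsElliptic →
        ∀ P : PeriodLattices E,
          RootIn D E (Omega P F) (M / M.gcd (Module.finrank ℚ F))) := by
  have hself : ∀ (K : Type) [Field K] [NumberField K] (E : WeierstrassCurve K),
      E.map (algebraMap K K) = E := by
    intro K _ _ E
    rw [Algebra.algebraMap_self, WeierstrassCurve.map_id]
  refine ⟨?_, ?_⟩
  · intro K _ _ E hE P
    have hid := hself K E
    refine ⟨?_, ?_, fun M hM h => degree P hE hD M hM h,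
      fun p hp => ⟨fun 𝓕 hF h => ?_, fun L _ _ _ _ h F _ _ _ _ _ => ?_⟩, ?_⟩
    · intro hnot
      by_contra hcon
      push Not at hcon
      obtain ⟨p, k, T, hp, -, hT, hinf, h⟩ := hcon 0
      obtain ⟨q, k', T', hq, hqp, hT', hinf', h'⟩ := hcon p
      have h1 := radical P hE hD p k T hp hT hinf h
      have h2 := radical P hE hD q k' T' hq hT' hinf' h'
      apply hnot
      have h3 := Pool.Agent.Q5.VL.one_of_gcd
        (Pool.Agent.Q92.LV.pp_law true hD.2.2.1 hE P.toPeriods) K
        (D := {p ^ k, q ^ k'}) (by
          intro g hg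
          have h4 := hg (p ^ k) (by simp)
          have h5 := hg (q ^ k') (by simp)
          have h6 : Nat.Coprime (p ^ k) (q ^ k') :=
            Nat.Coprime.pow _ _ ((Nat.coprime_primes hp hq).2 hqp.symm)
          exact Nat.eq_one_of_dvd_coprimes h6 h4 h5) (by
          rintro d (rfl | rfl)
          · exact h1
          · exact h2)
      exact (lead_iff P hE).1 h3
    · intro p k T hp hT hinf h
      exact root_iff P hE hD (pow_pos hp.pos k) (radical P hE hD p k T hp hT hinf h)
    · obtain ⟨c, hc, h1⟩ := Pool.Agent.Q92.LV.pp_exactAt true hD.2.2.1 hE P.toPeriods hp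
        (𝓕 := 𝓕) ⟨hF.1, hF.2.1, hF.2.2.1, fun σ => by
          obtain ⟨F, hFm, hnd⟩ := hF.2.2.2 σ
          refine ⟨F, hFm, ?_⟩
          have e : fix K F σ = Pool.Agent.W353.NF.fixn K F σ := by
            have hfd := hF.1 F hFm
            have hnf : NumberField F := NumberField.of_module_finite K F
            unfold fix Pool.Agent.W353.NF.fixn
            refine Nat.card_congr (Equiv.subtypeEquivRight fun i => ?_)
            rw [Pool.Agent.W353.NF.act_apply]
            constructor
            · intro h
              exact AlgHom.ext h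
            · intro h x
              exact DFunLike.congr_fun h x
          rwa [← e]⟩ (fun F hFm _ => (lead_iff P hE).2 (h F hFm))
      have hc0 : 0 < c := Nat.pos_of_ne_zero (by
        rintro rfl
        exact hc (dvd_zero p))
      exact ⟨c, hc, root_iff P hE hD hc0 h1⟩
    · obtain ⟨c, hc, h1⟩ := Pool.Agent.Q92.LV.pp_galoisP true hD.2.2.1 hE P.toPeriods hp L
        (fun F' _ _ _ _ _ hF' => (lead_iff P hE).2 (h F' hF')) F
      have hc0 : 0 < c := Nat.pos_of_ne_zero (by
        rintro rfl
        exact hc (dvd_zero p))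
      exact ⟨c, hc, root_iff P hE hD hc0 h1⟩
    · intro t h V hV f hf hfa hne
      unfold Root at h
      rw [hid] at h
      obtain ⟨h1, q, R, hq, hR, h2⟩ := h V hV f hf
      have h5 : meromorphicOrderAt f 1 = 0 := by
        rw [hfa.meromorphicOrderAt_eq, hfa.analyticOrderAt_eq_zero.2 hne]
        rfl
      rw [h1] at h5
      have h6 : rank E = 0 := by exact_mod_cast h5
      refine ⟨h6, q, hq, ?_⟩
      have h7 : R = 1 := by
        obtain ⟨h, -, Q, -, rfl⟩ := hR
        have h8 : IsEmpty (Fin (rank E)) := by
          rw [h6]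
          infer_instance
        exact Matrix.det_isEmpty
      rw [hfa.meromorphicTrailingCoeffAt_of_ne_zero hne, h7, mul_one] at h2
      exact h2
  · intro M hM h F _ _ E hE P
    have hg : 0 < M.gcd (Module.finrank ℚ F) := Nat.gcd_pos_of_pos_left _ hM
    have hM' : 0 < M / M.gcd (Module.finrank ℚ F) :=
      Nat.div_pos (Nat.le_of_dvd hM (Nat.gcd_dvd_left _ _)) hg
    have h2 := degree P hE hD (M / M.gcd (Module.finrank ℚ F)) hM' (fun F' _ _ _ hd => by
      have h3 := h F' (by
        rw [← Module.finrank_mul_finrank ℚ F F', mul_comm]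
        have h4 : M / M.gcd (Module.finrank ℚ F) * M.gcd (Module.finrank ℚ F) = M :=
          Nat.div_mul_cancel (Nat.gcd_dvd_left _ _)
        have h5 := Nat.mul_dvd_mul hd (Nat.gcd_dvd_right M (Module.finrank ℚ F))
        rwa [h4] at h5) _ inferInstance (P.up F')
      rwa [omega_up] at h3) F
    rw [hself F E, Module.finrank_self, Nat.gcd_one_right, Nat.div_one] at h2
    exact h2

end Pool.Agent.Results.MP_90f827_nt.RadicalTestFields
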